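import Mathlib
import Pool.Agent.Work.MP_f1799f_co.LP.Lim
import Pool.Agent.Work.MP_f1799f_co.LP.Main
import Pool.Agent.Work.MP_f1799f_co.LP.Certs2

/-- Turan's tetrahedron problem for the sum of the `p`-th powers of the codegrees: for every real
`p` in `[6/5, 17/5]` the asymptotic maximum is the value of Turan's construction. -/
theorem Pool.Agent.Results.MP_f1799f_co.CodegreeNorm.result (p : ℝ) (h1 : 6 / 5 ≤ p)
    (h2 : p ≤ 17 / 5) :
    Filter.Tendsto
      (fun n : ℕ =>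
        sSup {m : ℝ | ∃ E : Finset (Finset (Fin n)),
            (∀ e ∈ E, e.card = 3) ∧
            (∀ S : Finset (Fin n), S.card = 4 → ∃ T ⊆ S, T.card = 3 ∧ T ∉ E) ∧
            m = ∑ S ∈ (Finset.univ : Finset (Fin n)).powersetCard 2,
              (((E.filter fun e => S ⊆ e).card : ℕ) : ℝ) ^ p} /
          (((n.choose 2 : ℕ) : ℝ) * (n : ℝ) ^ p))
      Filter.atTop (nhds ((1 + 2 ^ (p + 1)) / 3 ^ (p + 1))) :=
  Pool.Agent.Work.MP_f1799f_co.LP.limit_of_upper p (by linarith)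
    (Pool.Agent.Work.MP_f1799f_co.LP.upper_of_certs Pool.Agent.Work.MP_f1799f_co.LP.certA'
      Pool.Agent.Work.MP_f1799f_co.LP.certE Pool.Agent.Work.MP_f1799f_co.LP.certD h1 h2)
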