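import Pool.Agent.Work.MP_f1799f_co.FdfCount

/-!
The Fon-der-Flaass conjecture.  `r` is an oriented graph on `Fin n` with no induced directed 4-cycle;
`G` is any family of triples each of which has neither an isolated vertex nor a vertex of out-degree 2
(the largest such family is the tetrahedron-free 3-graph of the Fon-der-Flaass construction).
-/

namespace Pool.Agent.Results.MP_f1799f_co.FonDerFlaass

theorem result (n : ℕ) (r : Fin n → Fin n → Prop) [DecidableRel r]
    (hasym : ∀ u v, r u v → ¬r v u)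
    (hC4 : ∀ a b c d, r a b → r b c → r c d → r d a → r a c ∨ r c a ∨ r b d ∨ r d b)
    (G : Finset (Finset (Fin n)))
    (hG : ∀ s ∈ G, s.card = 3 ∧ (¬∃ v ∈ s, ∀ u ∈ s, ¬r u v ∧ ¬r v u)
      ∧ ¬∃ v ∈ s, ∀ u ∈ s, u ≠ v → r v u) :
    54 * G.card + 27 * (Finset.univ.filter fun p : Fin n × Fin n => r p.1 p.2).card ≤ 5 * n ^ 3 :=
  Pool.Agent.Fdf.count_bound n r hasym hC4 G hG

end Pool.Agent.Results.MP_f1799f_co.FonDerFlaass
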