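import Pool.Agent.Work.MP_f1799f_co.NG.Main

/-!
A degree lower bound for the flag algebra (sum of squares) method on the tetrahedron problem.
A certificate of the bound `c` on `n + 4` vertices consists of squares (`f i`, with `k i` roots and
two disjoint extensions by `m i` vertices), a regularity term (`g` times the difference of the
degrees of two roots) and a multiplier `h`; the plain method is `g = 0`, `h = 1`, `M = 1`.  The
inequality is only required for the tetrahedron-free 3-graphs that the Fon-der-Flaass construction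
produces from the cyclically oriented complete tripartite graph after reversing all arcs that meet
a vertex set `S` (two-level Brown-Kostochka configurations; `S` empty is the Turan construction).
-/

set_option autoImplicit false

namespace Pool.Agent.Results.MP_f1799f_co.NoFlagProof

open Pool.Agent.NoFlag

theorem result (n : ℕ) (M c : ℝ) (t : ℕ) (k m : Fin t → ℕ)
    (f : ∀ i, Finset (Finset (Fin (k i) ⊕ Fin (m i))) → ℝ)
    (g : Finset (Finset (Fin (n + 2))) → ℝ) (h : Finset (Finset (Fin (n + 1))) → ℝ)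
    (hkm : ∀ i, k i + 2 * m i ≤ n + 4) (hg : ∀ F, |g F| ≤ M) (hh : ∀ F, |h F| ≤ M)
    (hT : 1 ≤ avg fun b : Fin (n + 1) → ZMod 3 => h (fdf fun u v => b v = b u + 1))
    (hcert : ∀ E : Finset (Finset (Fin (n + 4))), (∀ e ∈ E, e.card = 3) →
      (∀ S : Finset (Fin (n + 4)), S.card = 4 → ∃ T ⊆ S, T.card = 3 ∧ T ∉ E) →
      (∃ (a : Fin (n + 4) → ZMod 3) (S : Finset (Fin (n + 4))), E = fdf fun u v =>
        (u ∉ S ∧ v ∉ S ∧ a v = a u + 1) ∨ ((u ∈ S ∨ v ∈ S) ∧ a u = a v + 1)) →
      ∑ i, avg (fun θ : Fin (k i) ⊕ Fin (m i) ⊕ Fin (m i) ↪ Fin (n + 4) =>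
          f i (sub E (θ ∘ Sum.map id Sum.inl)) * f i (sub E (θ ∘ Sum.map id Sum.inr)))
        + avg (fun θ : Fin (n + 2) ⊕ Fin 2 ↪ Fin (n + 4) => g (sub E (θ ∘ Sum.inl)) *
            (ind E (θ (Sum.inl 0)) (θ (Sum.inr 0)) (θ (Sum.inr 1)) -
              ind E (θ (Sum.inl 1)) (θ (Sum.inr 0)) (θ (Sum.inr 1))))
        ≤ avg (fun θ : Fin (n + 1) ⊕ Fin 3 ↪ Fin (n + 4) => h (sub E (θ ∘ Sum.inl)) *
            (c - ind E (θ (Sum.inr 0)) (θ (Sum.inr 1)) (θ (Sum.inr 2))))) :
    5 / 9 + 1 / (10 ^ 13 * M ^ 4 * ((n : ℝ) + 4) ^ 9) ≤ c := by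
  have H := main n M c t k m f g h hkm hg hh hT fun x =>
    hcert (gr x) (gr_card x) (gr_k4 x) ⟨_, _, gr_eq x⟩
  push_cast at H
  exact H

end Pool.Agent.Results.MP_f1799f_co.NoFlagProof
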