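import Mathlib
import Pool.Agent.Work.MP_f1799f_co.Limit
import Pool.Agent.Work.MP_f1799f_co.Main

/-- The Turan density of the tetrahedron exists and is at most 0.557341. -/
theorem Pool.Agent.Results.MP_f1799f_co.UpperBound.result :
    ∃ L : ℝ, Filter.Tendsto
      (fun n : ℕ =>
        ((sSup {m : ℕ | ∃ E : Finset (Finset (Fin n)),
            (∀ e ∈ E, e.card = 3) ∧
            (∀ S : Finset (Fin n), S.card = 4 → ∃ T ⊆ S, T.card = 3 ∧ T ∉ E) ∧
            E.card = m} : ℕ) : ℝ) / ((n.choose 3 : ℕ) : ℝ))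
      Filter.atTop (nhds L) ∧ L ≤ 557341 / 1000000 := by
  refine Pool.Agent.Work.MP_f1799f_co.limit_of_finite _ fun n E e3 e4 => ?_
  have h := Pool.Agent.Work.MP_f1799f_co.edge_bound n E e3 e4
  have h2 : (6489000000000 : ℝ) * (6 * (E.card : ℝ)) ≤ 3616579525314 * (n : ℝ) ^ 3 := by
    exact_mod_cast h
  have h3 : (0 : ℝ) ≤ (n : ℝ) ^ 3 := by positivity
  linarith
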